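import Pool.Agent.H13.Kob.Span

/-!
# Entire curves with few zeros on general hypersurfaces of degree `d ≥ 2n+1`

For `n ≥ 1`, `d ≥ 2n+1` and all `k`, `r`: outside a proper Zariski-closed set of degree-`d` forms
`F` in `n+2` variables,
* every curve in the cone `{F = 0}` whose coordinates are linear combinations of `k` entire
  functions which have, all together, at most `r` zeros is projectively constant;
* every nonconstant entire curve in `{F = 0} ⊂ ℙ^{n+1}` meets the union of any `n+2` linearly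
  independent hyperplanes (those which do not contain it) for more than `r` parameter values.
-/

namespace Pool.Agent.H13.Kept.FewZeros

theorem result :
    ∀ n : ℕ, 1 ≤ n → ∀ d : ℕ, 2 * n + 1 ≤ d → ∀ k r : ℕ,
      ∃ P : MvPolynomial ((Fin (n + 2)) →₀ ℕ) ℂ,
        (∃ F₀ : MvPolynomial (Fin (n + 2)) ℂ, F₀.IsHomogeneous d ∧
            MvPolynomial.eval (fun m => F₀.coeff m) P ≠ 0) ∧
        ∀ F : MvPolynomial (Fin (n + 2)) ℂ, F.IsHomogeneous d →
          MvPolynomial.eval (fun m => F.coeff m) P ≠ 0 →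
          (∀ (f : Fin k → ℂ → ℂ) (v : Fin k → Fin (n + 2) → ℂ) (g : ℂ → Fin (n + 2) → ℂ),
            (∀ j, Differentiable ℂ (f j)) →
            {z : ℂ | ∃ j, f j z = 0 ∧ ∃ w, f j w ≠ 0}.encard ≤ r →
            (∀ z i, g z i = ∑ j, f j z * v j i) →
            (∀ z, MvPolynomial.eval (g z) F = 0) →
            ∃ (s : ℂ → ℂ) (c : Fin (n + 2) → ℂ), Differentiable ℂ s ∧ ∀ z i, g z i = s z * c i) ∧
          (∀ g : ℂ → Fin (n + 2) → ℂ, Differentiable ℂ g → (∀ z, g z ≠ 0) →
            (∀ z, MvPolynomial.eval (g z) F = 0) →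
            ∀ H : Fin (n + 2) → Fin (n + 2) → ℂ, LinearIndependent ℂ H →
            {z : ℂ | ∃ j, ∑ i, H j i * g z i = 0 ∧ ∃ w, ∑ i, H j i * g w i ≠ 0}.encard ≤ r →
            ∀ z, ∃ c : ℂ, g z = c • g 0) := by
  intro n hn d hd k r
  obtain ⟨e₁, he₁⟩ := Pool.Agent.H13.Kob.exists_bounded_type k d
  obtain ⟨c₁, hc₁⟩ := Pool.Agent.H13.Kob.exists_classes k d r
  obtain ⟨K₁, hK₁⟩ := Pool.Agent.H13.Kob.exists_weight k d c₁
  obtain ⟨e₂, he₂⟩ := Pool.Agent.H13.Kob.exists_bounded_type (n + 2) d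
  obtain ⟨c₂, hc₂⟩ := Pool.Agent.H13.Kob.exists_classes (n + 2) d r
  obtain ⟨K₂, hK₂⟩ := Pool.Agent.H13.Kob.exists_weight (n + 2) d c₂
  have hthin := Pool.Agent.H13.CEV.bounded_curves (N := n + 2) (d := d) (by omega) (by omega)
    (e₁ + e₂ + r * K₁ + r * K₂)
  obtain ⟨P, hP0, hP⟩ := Pool.Agent.H13.Kob.exists_open hthin
  refine ⟨P, hP0, fun F hF hFP => ?_⟩
  have hgood : Pool.Agent.H13.Kob.Good (e₁ + e₂ + r * K₁ + r * K₂)
      (fun m : Pool.Agent.H13.Kob.mons (n + 2) d => F.coeff m.1) := by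
    intro v hv i j a b
    by_contra hne
    exact hP F hF hFP ⟨v, hv, i, j, a, b, hne⟩
  have hFm := Pool.Agent.H13.Kob.eq_Fm hF
  constructor
  · intro f v g hf hr hg hgF
    have hge : ∀ z, g z = fun i => ∑ j, f j z * v j i := fun z => funext (hg z)
    have h := Pool.Agent.H13.Kob.span_few hgood
      (fun a => by
        obtain ⟨b, hb1, hb2⟩ := he₁ a
        exact ⟨b, hb1, fun j => (hb2 j).trans (by omega)⟩)
      r c₁ K₁ hc₁ hK₁ (by omega) f hf v
      (fun z => by
        rw [← hFm, ← hge]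
        exact hgF z) hr
    simp only [← hg] at h
    exact h
  · intro g hg hg0 hgF H hH hr
    exact Pool.Agent.H13.Kob.few hgood
      (fun a => by
        obtain ⟨b, hb1, hb2⟩ := he₂ a
        exact ⟨b, hb1, fun j => (hb2 j).trans (by omega)⟩)
      r c₂ K₂ hc₂ hK₂ (by omega) hg hg0 (fun z => by rw [← hFm]; exact hgF z) H hH hr

end Pool.Agent.H13.Kept.FewZeros
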